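import Pool.Agent.Helper54.SL.Defs

/-!
SL-11: the degree of the field generated by two roots over `k(T)`.
-/

set_option autoImplicit false
open scoped Pointwise
open Pool.Agent.Helper54.PW

namespace Pool.Agent.Helper54.SL

namespace Degree

open Polynomial

/-- Powers of a root of an irreducible polynomial are independent over `k(t)`. -/
lemma indep {k L : Type} [Field k] [Field L] [Algebra k L] (t w : L) (ht : Transcendental k t)
    (P : Polynomial (Polynomial k)) (hP : P.Monic) (hirr : Irreducible P)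
    (hw : (P.map (Polynomial.aeval t : Polynomial k →ₐ[k] L).toRingHom).eval w = 0)
    (d : ℕ) (hd : P.natDegree = d)
    (a : Fin d → L) (ha : ∀ i, a i ∈ IntermediateField.adjoin k {t})
    (h0 : ∑ i, a i * w ^ (i : ℕ) = 0) : ∀ i, a i = 0 := by
  set E := IntermediateField.adjoin k {t} with hE
  let e := RatFunc.algEquivOfTranscendental t ht
  have h1 : Irreducible (P.map (algebraMap k[X] (RatFunc k))) :=
    (hP.irreducible_iff_irreducible_map_fraction_map).1 hirr
  set Q : Polynomial E := (P.map (algebraMap k[X] (RatFunc k))).map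
    (e.toRingEquiv : RatFunc k →+* E) with hQ
  have hQirr : Irreducible Q := by
    have h2 := (MulEquiv.irreducible_iff (Polynomial.mapEquiv e.toRingEquiv).toMulEquiv
      (x := P.map (algebraMap k[X] (RatFunc k)))).2 h1
    exact h2
  have hQm : Q.Monic := (hP.map _).map _
  have hQd : Q.natDegree = d := by
    rw [hQ, (hP.map _).natDegree_map, hP.natDegree_map, hd]
  have hcomp : (algebraMap E L).comp ((e.toRingEquiv : RatFunc k →+* E).comp
      (algebraMap k[X] (RatFunc k))) = (Polynomial.aeval t : Polynomial k →ₐ[k] L).toRingHom := by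
    apply RingHom.ext
    intro g
    change ((e (algebraMap k[X] (RatFunc k) g) : E) : L) = aeval t g
    rw [RatFunc.algEquivOfTranscendental_algebraMap]
    have : ((aeval (IntermediateField.AdjoinSimple.gen k t) g : E) : L) =
        aeval (algebraMap E L (IntermediateField.AdjoinSimple.gen k t)) g := by
      rw [Polynomial.aeval_algebraMap_apply]
      rfl
    rw [this]
    rfl
  have hQw : aeval w Q = 0 := by
    rw [Polynomial.aeval_def, ← Polynomial.eval_map, hQ, Polynomial.map_map, Polynomial.map_map,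
      RingHom.comp_assoc, hcomp]
    exact hw
  have hmin := minpoly.eq_of_irreducible_of_monic hQirr hQw hQm
  have hli := linearIndependent_pow (K := E) w
  rw [← hmin, hQd] at hli
  rw [Fintype.linearIndependent_iff] at hli
  intro i
  have h3 := hli (fun i => ⟨a i, ha i⟩) (by
    rw [← h0]
    apply Finset.sum_congr rfl
    intro j _
    rw [Algebra.smul_def]
    rfl) i
  exact congrArg Subtype.val h3

/-- The first polynomial. -/
lemma irr1 {k : Type} [Field k] (q : ℕ) (hq : 2 ≤ q) :
    Irreducible ((X : k[X][X]) ^ (q ^ 2 - 1) - C X * X ^ (q - 1) + 1) ∧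
    ((X : k[X][X]) ^ (q ^ 2 - 1) - C X * X ^ (q - 1) + 1).Monic ∧
    ((X : k[X][X]) ^ (q ^ 2 - 1) - C X * X ^ (q - 1) + 1).natDegree = q ^ 2 - 1 := by
  have hqq : q - 1 < q ^ 2 - 1 := by
    have : q * 2 ≤ q ^ 2 := by rw [sq]; exact Nat.mul_le_mul_left q hq
    omega
  have hlt : (- (C (X : k[X]) * X ^ (q - 1)) + 1 : k[X][X]).natDegree < q ^ 2 - 1 := by
    have h1 : (- (C (X : k[X]) * X ^ (q - 1)) + 1 : k[X][X]).natDegree ≤ q - 1 := by
      refine (natDegree_add_le _ _).trans (max_le ?_ ?_)
      · rw [natDegree_neg]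
        exact natDegree_C_mul_X_pow_le _ _
      · rw [natDegree_one]
        exact Nat.zero_le _
    omega
  have heq : (X : k[X][X]) ^ (q ^ 2 - 1) - C X * X ^ (q - 1) + 1 =
      X ^ (q ^ 2 - 1) + (- (C (X : k[X]) * X ^ (q - 1)) + 1) := by ring
  refine ⟨?_, ?_, ?_⟩
  · have h1 : Irreducible (C (-(X : k[X]) ^ (q - 1)) * X + C (X ^ (q ^ 2 - 1) + 1)) := by
      apply irreducible_C_mul_X_add_C
      · exact neg_ne_zero.2 (pow_ne_zero _ X_ne_zero)
      · apply IsCoprime.isRelPrime
        refine ⟨X ^ (q ^ 2 - q), 1, ?_⟩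
        have h2 : (X : k[X]) ^ (q ^ 2 - 1) = X ^ (q ^ 2 - q) * X ^ (q - 1) := by
          rw [← pow_add]
          congr 1
          have : q ≤ q ^ 2 := by nlinarith
          omega
        rw [h2]
        ring
    have h2 := (MulEquiv.irreducible_iff (Bivariate.swap (R := k)).toMulEquiv
      (x := C (-(X : k[X]) ^ (q - 1)) * X + C (X ^ (q ^ 2 - 1) + 1))).2 h1
    have h3 : (Bivariate.swap (R := k)).toMulEquiv
        (C (-(X : k[X]) ^ (q - 1)) * X + C (X ^ (q ^ 2 - 1) + 1)) =
        (X : k[X][X]) ^ (q ^ 2 - 1) - C X * X ^ (q - 1) + 1 := by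
      change Bivariate.swap (C (-(X : k[X]) ^ (q - 1)) * X + C (X ^ (q ^ 2 - 1) + 1)) = _
      rw [map_add, map_mul, Bivariate.swap_C, Bivariate.swap_C, Bivariate.swap_Y]
      simp only [Polynomial.map_neg, Polynomial.map_pow, map_X, Polynomial.map_add,
        Polynomial.map_one]
      ring
    rw [h3] at h2
    exact h2
  · rw [heq]
    exact (monic_X_pow _).add_of_left (by
      rw [degree_X_pow]
      exact (degree_le_natDegree).trans_lt (by exact_mod_cast hlt))
  · rw [heq, natDegree_add_eq_left_of_natDegree_lt (by rw [natDegree_X_pow]; exact hlt),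
      natDegree_X_pow]

/-- The second polynomial. -/
lemma irr2 {k : Type} [Field k] (q : ℕ) (hq : 2 ≤ q) :
    Irreducible ((X : k[X][X]) ^ q + C (X ^ q) * X ^ (q - 1) - C X) ∧
    ((X : k[X][X]) ^ q + C (X ^ q) * X ^ (q - 1) - C X).Monic ∧
    ((X : k[X][X]) ^ q + C (X ^ q) * X ^ (q - 1) - C X).natDegree = q := by
  have hlt : (C ((X : k[X]) ^ q) * X ^ (q - 1) - C X : k[X][X]).natDegree < q := by
    have h1 : (C ((X : k[X]) ^ q) * X ^ (q - 1) - C X : k[X][X]).natDegree ≤ q - 1 := by
      refine (natDegree_sub_le _ _).trans (max_le ?_ ?_)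
      · exact natDegree_C_mul_X_pow_le _ _
      · rw [natDegree_C]
        exact Nat.zero_le _
    omega
  have heq : (X : k[X][X]) ^ q + C (X ^ q) * X ^ (q - 1) - C X =
      X ^ q + (C ((X : k[X]) ^ q) * X ^ (q - 1) - C X) := by ring
  have hdeg : ((X : k[X][X]) ^ q + C (X ^ q) * X ^ (q - 1) - C X).natDegree = q := by
    rw [heq, natDegree_add_eq_left_of_natDegree_lt (by rw [natDegree_X_pow]; exact hlt),
      natDegree_X_pow]
  have hmon : ((X : k[X][X]) ^ q + C (X ^ q) * X ^ (q - 1) - C X).Monic := by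
    rw [heq]
    exact (monic_X_pow _).add_of_left (by
      rw [degree_X_pow]
      exact (degree_le_natDegree).trans_lt (by exact_mod_cast hlt))
  have hcoeff : ∀ n, ((X : k[X][X]) ^ q + C (X ^ q) * X ^ (q - 1) - C X).coeff n =
      (if n = q then 1 else 0) + X ^ q * (if n = q - 1 then 1 else 0) -
        (if n = 0 then X else 0) := by
    intro n
    rw [coeff_sub, coeff_add, coeff_X_pow, coeff_C_mul, coeff_X_pow, coeff_C]
  refine ⟨?_, hmon, hdeg⟩
  apply irreducible_of_eisenstein_criterion (P := Ideal.span {(X : k[X])})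
  · rw [Ideal.span_singleton_prime X_ne_zero]
    exact prime_X
  · rw [hmon.leadingCoeff, Ideal.mem_span_singleton]
    intro h
    exact (prime_X (R := k)).not_isUnit (isUnit_of_dvd_one h)
  · intro n hn
    rw [degree_eq_natDegree hmon.ne_zero, hdeg] at hn
    have hn' : n < q := by exact_mod_cast hn
    rw [hcoeff, if_neg hn'.ne, Ideal.mem_span_singleton]
    apply dvd_sub
    · rw [zero_add]
      exact Dvd.dvd.mul_right (dvd_pow_self _ (by omega)) _
    · split_ifs
      · exact dvd_rfl
      · exact dvd_zero _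
  · rw [degree_eq_natDegree hmon.ne_zero, hdeg]
    exact_mod_cast (by omega : 0 < q)
  · rw [hcoeff, if_neg (by omega), if_neg (by omega), if_pos rfl, Ideal.span_singleton_pow,
      Ideal.mem_span_singleton]
    intro h
    have h1 : (X : k[X]) ^ 2 ∣ X ^ 1 := by
      rw [mul_zero, add_zero, zero_sub, dvd_neg] at h
      rw [pow_one]
      exact h
    have h2 := (pow_dvd_pow_iff (X_ne_zero (R := k)) (prime_X (R := k)).not_isUnit).1 h1
    omega
  · exact hmon.isPrimitive

end Degree

open Polynomial in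
theorem finrank_ge {p n : ℕ} [Fact p.Prime] (hn : 0 < n) {k K0 L : Type} [Field k] [IsAlgClosed k]
    [CharP k p] [Field K0] [Algebra k K0] [Field L] [Algebra K0 L] (T : K0)
    (hT : Transcendental k T) (hK : IntermediateField.adjoin k {T} = ⊤) (y0 y1 : L)
    (h0 : Rt (p ^ n) (algebraMap K0 L T) y0) (h1 : Rt (p ^ n) (algebraMap K0 L T) y1)
    (hd : dd (p ^ n) y0 y1 = 1) :
    p ^ n * ((p ^ n) ^ 2 - 1) ≤ Module.finrank K0 (IntermediateField.adjoin K0 {y0, y1}) := by
  have hp2 : 2 ≤ p := (Fact.out : p.Prime).two_le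
  obtain ⟨q, hq⟩ : ∃ q, q = p ^ n := ⟨_, rfl⟩
  have hq2 : 2 ≤ q := by
    rw [hq]
    calc 2 ≤ p := hp2
      _ = p ^ 1 := (pow_one p).symm
      _ ≤ p ^ n := Nat.pow_le_pow_right (by omega) hn
  rw [← hq] at h0 h1 hd ⊢
  letI : Algebra k L := ((algebraMap K0 L).comp (algebraMap k K0)).toAlgebra
  haveI : IsScalarTower k K0 L := IsScalarTower.of_algebraMap_eq (fun x => rfl)
  set TL := algebraMap K0 L T with hTLdef
  have hTL : Transcendental k TL :=
    (transcendental_algebraMap_iff (algebraMap K0 L).injective).2 hT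
  have hK0 : ∀ c : K0, algebraMap K0 L c ∈ IntermediateField.adjoin k {TL} := by
    intro c
    have hc : c ∈ IntermediateField.adjoin k {T} := by rw [hK]; trivial
    have h2 := IntermediateField.adjoin_map k {T} (IsScalarTower.toAlgHom k K0 L)
    rw [Set.image_singleton] at h2
    have h3 : algebraMap K0 L c ∈ (IntermediateField.adjoin k {T}).map
        (IsScalarTower.toAlgHom k K0 L) := ⟨c, hc, rfl⟩
    rw [h2] at h3
    exact h3
  have hy0 : y0 ≠ 0 := by
    rintro rfl
    rw [dd, zero_mul, zero_pow (by omega), zero_mul, sub_zero] at hd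
    exact zero_ne_one hd
  have hy1 : y1 ≠ 0 := by
    rintro rfl
    rw [dd, mul_zero, zero_pow (by omega), mul_zero, sub_zero] at hd
    exact zero_ne_one hd
  have hTy : TL = (y0 ^ (q ^ 2) + y0) / y0 ^ q := by
    rw [eq_div_iff (pow_ne_zero _ hy0)]
    rw [Rt] at h0
    linear_combination (-1 : L) * h0
  have hmem0 : y0 ∈ IntermediateField.adjoin k {y0} := IntermediateField.mem_adjoin_simple_self k y0
  have hTmem : TL ∈ IntermediateField.adjoin k {y0} := by
    rw [hTy]
    exact div_mem (add_mem (pow_mem hmem0 _) hmem0) (pow_mem hmem0 _)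
  have hle : IntermediateField.adjoin k {TL} ≤ IntermediateField.adjoin k {y0} := by
    rw [IntermediateField.adjoin_simple_le_iff]
    exact hTmem
  have hy0t : Transcendental k y0 := by
    intro halg
    apply hTL
    rw [hTy, div_eq_mul_inv]
    exact ((halg.pow _).add halg).mul (halg.pow _).inv
  have e1 : y0 ^ (q ^ 2 - 1) - TL * y0 ^ (q - 1) + 1 = 0 := by
    have h2 : y0 * (y0 ^ (q ^ 2 - 1) - TL * y0 ^ (q - 1) + 1) = 0 := by
      have i1 : y0 * y0 ^ (q ^ 2 - 1) = y0 ^ (q ^ 2) := by
        rw [← pow_succ']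
        congr 1
        have : 0 < q ^ 2 := by positivity
        omega
      have i2 : y0 * y0 ^ (q - 1) = y0 ^ q := by
        rw [← pow_succ']
        congr 1
        omega
      rw [Rt] at h0
      linear_combination h0 + i1 - TL * i2
    exact (mul_eq_zero.1 h2).resolve_left hy0
  have e2 : (y1⁻¹) ^ q + y0 ^ q * (y1⁻¹) ^ (q - 1) - y0 = 0 := by
    have i2 : y1⁻¹ ^ (q - 1) = y1 * (y1⁻¹) ^ q := by
      have : (y1⁻¹) ^ q = y1⁻¹ * (y1⁻¹) ^ (q - 1) := by
        rw [← pow_succ']
        congr 1
        omega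
      rw [this, ← mul_assoc, mul_inv_cancel₀ hy1, one_mul]
    have i3 : y1 ^ q * (y1⁻¹) ^ q = 1 := by
      rw [← mul_pow, mul_inv_cancel₀ hy1, one_pow]
    rw [i2]
    rw [dd] at hd
    linear_combination (-(y1⁻¹) ^ q) * hd + y0 * i3
  obtain ⟨r1, m1, d1⟩ := Degree.irr1 (k := k) q hq2
  obtain ⟨r2, m2, d2⟩ := Degree.irr2 (k := k) q hq2
  have hind1 := Degree.indep TL y0 hTL _ m1 r1 (by
    simp only [Polynomial.map_add, Polynomial.map_sub, Polynomial.map_mul, Polynomial.map_pow,
      map_X, map_C, Polynomial.map_one, eval_add, eval_sub, eval_mul, eval_pow, eval_X, eval_C,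
      eval_one, AlgHom.toRingHom_eq_coe, RingHom.coe_coe, aeval_X]
    exact e1) _ d1
  have hind2 := Degree.indep y0 (y1⁻¹) hy0t _ m2 r2 (by
    simp only [Polynomial.map_add, Polynomial.map_sub, Polynomial.map_mul, Polynomial.map_pow,
      map_X, map_C, Polynomial.map_one, eval_add, eval_sub, eval_mul, eval_pow, eval_X, eval_C,
      eval_one, AlgHom.toRingHom_eq_coe, RingHom.coe_coe, aeval_X, map_pow]
    exact e2) _ d2
  -- the family
  set M := IntermediateField.adjoin K0 {y0, y1} with hM
  have hy0M : y0 ∈ M := IntermediateField.subset_adjoin K0 _ (by simp)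
  have hy1M : y1 ∈ M := IntermediateField.subset_adjoin K0 _ (by simp)
  set b : Fin (q ^ 2 - 1) × Fin q → M := fun ij =>
    (⟨y0, hy0M⟩ : M) ^ (ij.1 : ℕ) * ((⟨y1, hy1M⟩ : M)⁻¹) ^ (ij.2 : ℕ) with hb
  have hbval : ∀ ij, ((b ij : M) : L) = y0 ^ (ij.1 : ℕ) * (y1⁻¹) ^ (ij.2 : ℕ) := by
    intro ij
    rw [hb]
    push_cast
    rfl
  have hli : LinearIndependent K0 b := by
    rw [Fintype.linearIndependent_iff]
    intro g hg
    have hg' : ∑ j : Fin q, (∑ i : Fin (q ^ 2 - 1), algebraMap K0 L (g (i, j)) * y0 ^ (i : ℕ)) *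
        (y1⁻¹) ^ (j : ℕ) = 0 := by
      have h2 := congrArg (algebraMap M L) hg
      rw [map_sum, map_zero] at h2
      rw [← h2, Fintype.sum_prod_type_right]
      apply Finset.sum_congr rfl
      intro j _
      rw [Finset.sum_mul]
      apply Finset.sum_congr rfl
      intro i _
      rw [Algebra.smul_def, map_mul]
      have h3 : algebraMap M L (b (i, j)) = y0 ^ (i : ℕ) * (y1⁻¹) ^ (j : ℕ) := hbval (i, j)
      rw [h3, ← IsScalarTower.algebraMap_apply]
      ring
    have h3 := hind2 (fun j => ∑ i : Fin (q ^ 2 - 1), algebraMap K0 L (g (i, j)) * y0 ^ (i : ℕ))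
      (fun j => sum_mem fun i _ => mul_mem (hle (hK0 _)) (pow_mem hmem0 _)) hg'
    rintro ⟨i, j⟩
    have h4 := hind1 (fun i => algebraMap K0 L (g (i, j))) (fun i => hK0 _) (h3 j) i
    exact (map_eq_zero (algebraMap K0 L)).1 h4
  have hint : ∀ y : L, Rt q TL y → IsIntegral K0 y := by
    intro y hy
    refine ⟨(X : K0[X]) ^ (q ^ 2) + (- (C T * X ^ q) + X), ?_, ?_⟩
    · apply (monic_X_pow _).add_of_left
      rw [degree_X_pow]
      refine (degree_le_natDegree).trans_lt ?_
      have hqq : q < q ^ 2 := by nlinarith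
      have h2 : (- (C T * X ^ q) + X : K0[X]).natDegree ≤ q := by
        refine (natDegree_add_le _ _).trans (max_le ?_ ?_)
        · rw [natDegree_neg]
          exact natDegree_C_mul_X_pow_le _ _
        · rw [natDegree_X]
          omega
      exact_mod_cast h2.trans_lt hqq
    · rw [Rt] at hy
      simp only [eval₂_add, eval₂_neg, eval₂_mul, eval₂_pow, eval₂_X, eval₂_C]
      linear_combination hy
  haveI : FiniteDimensional K0 M := by
    apply IntermediateField.finiteDimensional_adjoin
    intro x hx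
    rcases hx with hx | hx
    · rw [hx]
      exact hint y0 h0
    · rw [Set.mem_singleton_iff] at hx
      rw [hx]
      exact hint y1 h1
  have h5 := hli.fintype_card_le_finrank
  rw [Fintype.card_prod, Fintype.card_fin, Fintype.card_fin, mul_comm] at h5
  exact h5

end Pool.Agent.Helper54.SL
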